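import Mathlib

/-!
# Roots of polynomials in a class modulo the integers
-/

set_option autoImplicit false

open Polynomial

namespace Pool.Agent.X191.LR

open Classical in
/-- the number of roots, with multiplicity, in `x₀ + ℤ` -/
noncomputable def cl (x₀ : ℂ) (p : ℂ[X]) : ℕ :=
  Multiset.card (p.roots.filter fun x => ∃ k : ℤ, x = x₀ + k)

theorem cl_mul (x₀ : ℂ) {p q : ℂ[X]} (hp : p ≠ 0) (hq : q ≠ 0) : cl x₀ (p * q) = cl x₀ p + cl x₀ q := by
  unfold cl
  rw [roots_mul (mul_ne_zero hp hq), Multiset.filter_add, Multiset.card_add]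

theorem cl_one (x₀ : ℂ) : cl x₀ 1 = 0 := by
  unfold cl
  simp

theorem cl_C (x₀ a : ℂ) : cl x₀ (C a) = 0 := by
  unfold cl
  simp

theorem cl_pow (x₀ : ℂ) {p : ℂ[X]} (hp : p ≠ 0) (n : ℕ) : cl x₀ (p ^ n) = n * cl x₀ p := by
  induction n with
  | zero => simp [cl_one]
  | succ n ih => rw [pow_succ, cl_mul x₀ (pow_ne_zero _ hp) hp, ih]; ring

theorem cl_prod {ι : Type} (x₀ : ℂ) (s : Finset ι) (p : ι → ℂ[X]) (hp : ∀ i ∈ s, p i ≠ 0) :
    cl x₀ (∏ i ∈ s, p i) = ∑ i ∈ s, cl x₀ (p i) := by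
  classical
  induction s using Finset.induction_on with
  | empty => simp [cl_one]
  | insert a s ha ih =>
    rw [Finset.prod_insert ha, Finset.sum_insert ha, cl_mul x₀ (hp a (Finset.mem_insert_self _ _))
      (Finset.prod_ne_zero_iff.2 fun i hi => hp i (Finset.mem_insert_of_mem hi)),
      ih fun i hi => hp i (Finset.mem_insert_of_mem hi)]

theorem roots_shift (p : ℂ[X]) : (p.comp (X + 1)).roots = p.roots.map fun x => x - 1 := by
  classical
  ext c
  have h := rootMultiplicity_comp_C_mul_X_add_C p 1 1 c isUnit_one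
  have e : (C (1 : ℂ) * X + C 1 : ℂ[X]) = X + 1 := by simp
  rw [e] at h
  rw [count_roots, h]
  have h2 : c = (c + 1) - 1 := by ring
  conv_rhs => rw [h2]
  rw [Multiset.count_map_eq_count' (fun x : ℂ => x - 1) _ (fun x y h => by simpa using h), count_roots]
  congr 1
  ring

theorem cl_shift (x₀ : ℂ) (p : ℂ[X]) : cl x₀ (p.comp (X + 1)) = cl x₀ p := by
  classical
  unfold cl
  rw [roots_shift, Multiset.filter_map, Multiset.card_map]
  congr 1
  apply Multiset.filter_congr
  intro x _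
  constructor
  · rintro ⟨k, hk⟩
    refine ⟨k + 1, ?_⟩
    simp only at hk
    push_cast
    linear_combination hk
  · rintro ⟨k, hk⟩
    refine ⟨k - 1, ?_⟩
    simp only
    push_cast
    linear_combination hk

theorem cl_linear (x₀ a b : ℂ) (ha : a ≠ 0) [Decidable (∃ k : ℤ, -(a⁻¹ * b) = x₀ + k)] :
    cl x₀ (C a * X + C b) = if ∃ k : ℤ, -(a⁻¹ * b) = x₀ + k then 1 else 0 := by
  classical
  unfold cl
  rw [roots_C_mul_X_add_C b ha]
  split_ifs with h
  · rw [Multiset.filter_singleton, if_pos h]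
    rfl
  · rw [Multiset.filter_singleton, if_neg h]
    rfl

/-- the multiplier of `Γ(α z + γ)` -/
noncomputable def RG (α : ℕ) (γ : ℂ) : ℂ[X] := ∏ k ∈ Finset.range α, (C (α : ℂ) * X + C (γ + k))

theorem lin_ne {a b : ℂ} (ha : a ≠ 0) : (C a * X + C b : ℂ[X]) ≠ 0 := by
  intro h
  have := congrArg (fun p => p.coeff 1) h
  simp at this
  exact ha this

theorem RG_ne {α : ℕ} (hα : 1 ≤ α) (γ : ℂ) : RG α γ ≠ 0 := by
  unfold RG
  refine Finset.prod_ne_zero_iff.2 fun k _ => lin_ne ?_
  exact_mod_cast (by omega : α ≠ 0)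

open Classical in
theorem cl_RG {α : ℕ} (hα : 1 ≤ α) (γ x₀ : ℂ) :
    cl x₀ (RG α γ) = if ∃ z : ℤ, (α : ℂ) * x₀ + γ = z then 1 else 0 := by
  have hα0 : (α : ℂ) ≠ 0 := by exact_mod_cast (by omega : α ≠ 0)
  have hαz : (0 : ℤ) < α := by exact_mod_cast hα
  unfold RG
  rw [cl_prod x₀ _ _ fun k _ => lin_ne hα0]
  simp only [cl_linear x₀ (α : ℂ) _ hα0]
  -- the condition for the index `k`
  have key : ∀ k : ℕ, (∃ m : ℤ, -((α : ℂ)⁻¹ * (γ + k)) = x₀ + m) ↔
      ∃ m : ℤ, (α : ℂ) * x₀ + γ = ((-(k : ℤ) - α * m : ℤ) : ℂ) := by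
    intro k
    refine exists_congr fun m => ?_
    constructor
    · intro h
      push_cast
      field_simp at h
      linear_combination -h
    · intro h
      push_cast at h
      field_simp
      linear_combination -h
  simp only [key]
  split_ifs with h
  · obtain ⟨z, hz⟩ := h
    -- the only index is `(-z) mod α`
    set k₀ : ℕ := ((-z) % (α : ℤ)).toNat with hk₀
    have h0 : 0 ≤ (-z) % (α : ℤ) := Int.emod_nonneg _ hαz.ne'
    have h1 : (k₀ : ℤ) = (-z) % (α : ℤ) := Int.toNat_of_nonneg h0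
    have h2 : k₀ < α := by
      have := Int.emod_lt_of_pos (-z) hαz
      omega
    rw [Finset.sum_eq_single k₀]
    · rw [if_pos]
      refine ⟨(-z) / (α : ℤ), ?_⟩
      rw [hz]
      have h3 := Int.emod_add_mul_ediv (-z) (α : ℤ)
      have h4 : z = -(k₀ : ℤ) - α * ((-z) / (α : ℤ)) := by
        rw [h1]
        linarith
      exact_mod_cast h4
    · intro k hk hne
      rw [if_neg]
      rintro ⟨m, hm⟩
      apply hne
      rw [hz] at hm
      have h5 : z = -(k : ℤ) - α * m := by exact_mod_cast hm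
      rw [Finset.mem_range] at hk
      have h6 : (-z) % (α : ℤ) = k := by
        have : -z = (k : ℤ) + α * m := by linarith
        rw [this, Int.add_mul_emod_self_left]
        exact Int.emod_eq_of_lt (by positivity) (by exact_mod_cast hk)
      rw [hk₀, h6]
      simp
    · intro hk
      exact absurd (Finset.mem_range.2 h2) hk
  · refine Finset.sum_eq_zero fun k _ => ?_
    rw [if_neg]
    rintro ⟨m, hm⟩
    exact h ⟨_, hm⟩

end Pool.Agent.X191.LR
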