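import Mathlib

/-!
# Relations between solutions of first order difference equations
-/

set_option autoImplicit false

open Polynomial

namespace Pool.Agent.X191.LR

variable {κ : Type} [Fintype κ]

/-- the product of the multipliers of a monomial -/
noncomputable def RR (R : κ → ℂ[X]) (m : κ →₀ ℕ) : ℂ[X] := ∏ y, R y ^ m y

/-- the shift of the variable, with the multipliers -/
noncomputable def SS (R : κ → ℂ[X]) : MvPolynomial κ ℂ[X] →+* MvPolynomial κ ℂ[X] :=
  MvPolynomial.eval₂Hom (MvPolynomial.C.comp (compRingHom (X + 1))) (fun y => MvPolynomial.C (R y) * MvPolynomial.X y)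

/-- evaluation at `z` and the values of the functions `g y` at `z` -/
noncomputable def EV (g : κ → ℂ → ℂ) (z : ℂ) : MvPolynomial κ ℂ[X] →+* ℂ :=
  MvPolynomial.eval₂Hom (evalRingHom z) (fun y => g y z)

theorem SS_monomial (R : κ → ℂ[X]) (m : κ →₀ ℕ) (c : ℂ[X]) :
    SS R (MvPolynomial.monomial m c) = MvPolynomial.monomial m (c.comp (X + 1) * RR R m) := by
  classical
  unfold SS RR
  rw [MvPolynomial.coe_eval₂Hom, MvPolynomial.eval₂_monomial, MvPolynomial.monomial_eq (a := _ * _)]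
  simp only [RingHom.comp_apply, coe_compRingHom_apply]
  rw [Finsupp.prod_fintype _ _ (fun y => pow_zero _), Finsupp.prod_fintype _ _ (fun y => pow_zero _)]
  simp only [mul_pow, Finset.prod_mul_distrib, map_mul, map_prod, map_pow]
  ring

theorem coeff_SS (R : κ → ℂ[X]) (Q : MvPolynomial κ ℂ[X]) (m : κ →₀ ℕ) :
    MvPolynomial.coeff m (SS R Q) = (MvPolynomial.coeff m Q).comp (X + 1) * RR R m := by
  classical
  induction Q using MvPolynomial.induction_on' with
  | monomial u a =>
    rw [SS_monomial, MvPolynomial.coeff_monomial, MvPolynomial.coeff_monomial]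
    split_ifs with h
    · rw [h]
    · simp
  | add p q hp hq =>
    rw [map_add, MvPolynomial.coeff_add, MvPolynomial.coeff_add, hp, hq, add_comp, add_mul]

theorem EV_SS (R : κ → ℂ[X]) (g : κ → ℂ → ℂ) (z : ℂ) (hg : ∀ y, g y (z + 1) = (R y).eval z * g y z)
    (Q : MvPolynomial κ ℂ[X]) : EV g z (SS R Q) = EV g (z + 1) Q := by
  have h : (EV g z).comp (SS R) = EV g (z + 1) := by
    apply MvPolynomial.ringHom_ext
    · intro p
      simp [EV, SS]
    · intro y
      simp [EV, SS, hg]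
  exact RingHom.congr_fun h Q

/-- a relation with few terms -/
theorem minimal (R : κ → ℂ[X]) (g : κ → ℂ → ℂ) (U : Set ℂ) (hU : ∀ z ∈ U, z + 1 ∈ U)
    (hg : ∀ y, ∀ z ∈ U, g y (z + 1) = (R y).eval z * g y z) (Q : MvPolynomial κ ℂ[X]) (hQ : Q ≠ 0)
    (hrel : ∀ z ∈ U, EV g z Q = 0) :
    ∃ Q' : MvPolynomial κ ℂ[X], Q' ≠ 0 ∧ (∀ z ∈ U, EV g z Q' = 0) ∧ ∀ m ∈ Q'.support, ∀ m' ∈ Q'.support,
      (MvPolynomial.coeff m Q').comp (X + 1) * RR R m * MvPolynomial.coeff m' Q' =
        MvPolynomial.coeff m Q' * ((MvPolynomial.coeff m' Q').comp (X + 1) * RR R m') := by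
  classical
  have hex : ∃ k : ℕ, ∃ Q' : MvPolynomial κ ℂ[X], Q' ≠ 0 ∧ (∀ z ∈ U, EV g z Q' = 0) ∧ Q'.support.card = k :=
    ⟨_, Q, hQ, hrel, rfl⟩
  obtain ⟨Q', h0, hr, hk⟩ := Nat.find_spec hex
  refine ⟨Q', h0, hr, fun m hm m' hm' => ?_⟩
  set D : MvPolynomial κ ℂ[X] := MvPolynomial.C ((MvPolynomial.coeff m Q').comp (X + 1) * RR R m) * Q' -
    MvPolynomial.C (MvPolynomial.coeff m Q') * SS R Q' with hD
  have hDc : ∀ u, MvPolynomial.coeff u D = (MvPolynomial.coeff m Q').comp (X + 1) * RR R m * MvPolynomial.coeff u Q' -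
      MvPolynomial.coeff m Q' * ((MvPolynomial.coeff u Q').comp (X + 1) * RR R u) := by
    intro u
    rw [hD, MvPolynomial.coeff_sub, MvPolynomial.coeff_C_mul, MvPolynomial.coeff_C_mul, coeff_SS]
  have hDr : ∀ z ∈ U, EV g z D = 0 := by
    intro z hz
    rw [hD, map_sub, map_mul (EV g z) (MvPolynomial.C _) Q', map_mul (EV g z) (MvPolynomial.C _) (SS R Q'), hr z hz, EV_SS R g z (fun y => hg y z hz), hr (z + 1) (hU z hz)]
    simp
  have hDs : D.support ⊆ Q'.support.erase m := by
    intro u hu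
    rw [MvPolynomial.mem_support_iff, hDc] at hu
    rw [Finset.mem_erase, MvPolynomial.mem_support_iff]
    constructor
    · rintro rfl
      apply hu
      ring
    · intro h
      apply hu
      rw [h]
      simp
  have hD0 : D = 0 := by
    by_contra hne
    have h1 : D.support.card < Nat.find hex := by
      rw [← hk]
      exact lt_of_le_of_lt (Finset.card_le_card hDs) (Finset.card_erase_lt_of_mem hm)
    exact Nat.find_min hex h1 ⟨D, hne, hDr, rfl⟩
  have h2 := hDc m'
  rw [hD0, MvPolynomial.coeff_zero] at h2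
  exact (sub_eq_zero.1 h2.symm)

end Pool.Agent.X191.LR
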