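import Mathlib
import Pool.Agent.X191.LR.Diff
import Pool.Agent.X191.LR.Cls
import Pool.Agent.Y771.RP.Rel

/-!
# Independence of `Γ(α_i z + γ_i)`, `b_k ^ z`, `exp (2 π i z)`
-/

set_option autoImplicit false

open Polynomial

namespace Pool.Agent.X191.LR

/-- There is no distribution relation between the linear forms `α_i x + γ_i`. -/
def NoDist {r : ℕ} (α : Fin r → ℕ) (γ : Fin r → ℂ) : Prop :=
  ∀ e : Fin r → ℤ, (∀ x : ℂ, ∑ᶠ (i : Fin r) (_ : ∃ z : ℤ, (α i : ℂ) * x + γ i = z), e i = 0) → e = 0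

/-- The positive numbers `b_k` are multiplicatively independent. -/
def MulInd {s : ℕ} (b : Fin s → ℝ) : Prop := ∀ n : Fin s → ℤ, ∏ k, b k ^ n k = 1 → n = 0

/-- the index set of the functions -/
abbrev K (r s : ℕ) : Type := Fin r ⊕ (Fin s ⊕ Unit)

/-- the functions `Γ(α_i z + γ_i)`, `b_k ^ z`, `exp (2 π i z)` -/
noncomputable def gg {r s : ℕ} (α : Fin r → ℕ) (γ : Fin r → ℂ) (b : Fin s → ℝ) : K r s → ℂ → ℂ
  | Sum.inl i => fun z => Complex.Gamma (α i * z + γ i)
  | Sum.inr (Sum.inl k) => fun z => (b k : ℂ) ^ z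
  | Sum.inr (Sum.inr _) => fun z => Complex.exp (2 * Real.pi * Complex.I * z)

/-- the multipliers -/
noncomputable def Rg {r s : ℕ} (α : Fin r → ℕ) (γ : Fin r → ℂ) (b : Fin s → ℝ) : K r s → ℂ[X]
  | Sum.inl i => RG (α i) (γ i)
  | Sum.inr (Sum.inl k) => C (b k : ℂ)
  | Sum.inr (Sum.inr _) => 1

/-- the domain: no pole of the Gamma functions -/
def U {r : ℕ} (α : Fin r → ℕ) (γ : Fin r → ℂ) : Set ℂ := {z | ∀ i, ∀ k : ℕ, (α i : ℂ) * z + γ i ≠ -k}

theorem U_shift {r : ℕ} (α : Fin r → ℕ) (γ : Fin r → ℂ) {z : ℂ} (hz : z ∈ U α γ) : z + 1 ∈ U α γ := by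
  intro i k h
  refine hz i (k + α i) ?_
  push_cast
  linear_combination h

theorem U_shift_nat {r : ℕ} (α : Fin r → ℕ) (γ : Fin r → ℂ) {z : ℂ} (hz : z ∈ U α γ) (n : ℕ) :
    z + n ∈ U α γ := by
  induction n with
  | zero => simpa using hz
  | succ n ih =>
    have := U_shift α γ ih
    push_cast
    rwa [← add_assoc]

theorem Gamma_shift (w : ℂ) (hw : ∀ k : ℕ, w ≠ -k) (n : ℕ) :
    Complex.Gamma (w + n) = (∏ k ∈ Finset.range n, (w + k)) * Complex.Gamma w := by
  induction n with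
  | zero => simp
  | succ n ih =>
    have h0 : w + n ≠ 0 := fun h => hw n (by linear_combination h)
    rw [Finset.prod_range_succ, Nat.cast_succ, ← add_assoc, Complex.Gamma_add_one _ h0, ih]
    ring

theorem RG_eval (α : ℕ) (γ z : ℂ) : (RG α γ).eval z = ∏ k ∈ Finset.range α, ((α : ℂ) * z + γ + k) := by
  unfold RG
  rw [eval_prod]
  refine Finset.prod_congr rfl fun k _ => ?_
  simp
  ring

theorem gg_shift {r s : ℕ} (α : Fin r → ℕ) (γ : Fin r → ℂ) (b : Fin s → ℝ) (hb : ∀ k, 0 < b k) (y : K r s)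
    {z : ℂ} (hz : z ∈ U α γ) : gg α γ b y (z + 1) = (Rg α γ b y).eval z * gg α γ b y z := by
  rcases y with i | k | u
  · change Complex.Gamma (α i * (z + 1) + γ i) = (RG (α i) (γ i)).eval z * Complex.Gamma (α i * z + γ i)
    rw [RG_eval, ← Gamma_shift _ (hz i)]
    congr 1
    ring
  · change (b k : ℂ) ^ (z + 1) = (C (b k : ℂ)).eval z * (b k : ℂ) ^ z
    have h0 : (b k : ℂ) ≠ 0 := by exact_mod_cast (hb k).ne'
    rw [Complex.cpow_add _ _ h0, Complex.cpow_one, eval_C]
    ring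
  · change Complex.exp (2 * Real.pi * Complex.I * (z + 1)) = (1 : ℂ[X]).eval z * Complex.exp (2 * Real.pi * Complex.I * z)
    rw [mul_add, mul_one, Complex.exp_add, Complex.exp_two_pi_mul_I, eval_one]
    ring

theorem gg_ne {r s : ℕ} (α : Fin r → ℕ) (γ : Fin r → ℂ) (b : Fin s → ℝ) (hb : ∀ k, 0 < b k) (y : K r s)
    {z : ℂ} (hz : z ∈ U α γ) : gg α γ b y z ≠ 0 := by
  rcases y with i | k | u
  · exact Complex.Gamma_ne_zero (hz i)
  · have h0 : (b k : ℂ) ≠ 0 := by exact_mod_cast (hb k).ne'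
    intro h
    exact h0 ((Complex.cpow_eq_zero_iff _ _).1 h).1
  · exact Complex.exp_ne_zero _

theorem gg_an {r s : ℕ} (α : Fin r → ℕ) (γ : Fin r → ℂ) (b : Fin s → ℝ) (hb : ∀ k, 0 < b k) (y : K r s)
    {z : ℂ} (hz : z ∈ U α γ) : AnalyticAt ℂ (gg α γ b y) z := by
  rcases y with i | k | u
  · exact AnalyticAt.fun_comp (g := Complex.Gamma) (f := fun z : ℂ => (α i : ℂ) * z + γ i)
      (Pool.Agent.Y771.RP.Gamma_analyticAt (hz i)) ((analyticAt_const.mul analyticAt_id).add analyticAt_const)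
  · have h0 : (b k : ℂ) ≠ 0 := by exact_mod_cast (hb k).ne'
    change AnalyticAt ℂ (fun z => (b k : ℂ) ^ z) z
    have e : (fun z : ℂ => (b k : ℂ) ^ z) = fun z => Complex.exp (Complex.log (b k) * z) := by
      funext z
      rw [Complex.cpow_def_of_ne_zero h0]
    rw [e]
    exact (analyticAt_const.mul analyticAt_id).cexp'
  · exact (analyticAt_const.mul analyticAt_id).cexp'

theorem U_conn {r : ℕ} (α : Fin r → ℕ) (hα : ∀ i, 1 ≤ α i) (γ : Fin r → ℂ) : IsPreconnected (U α γ) := by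
  have h1 : U α γ = ({z | ∃ i, ∃ k : ℕ, (α i : ℂ) * z + γ i = -k} : Set ℂ)ᶜ := by
    ext z
    simp [U]
  rw [h1]
  refine (Set.Countable.isConnected_compl_of_one_lt_rank ?_ ?_).isPreconnected
  · rw [Complex.rank_real_complex]
    exact_mod_cast (by norm_num : (1 : ℕ) < 2)
  · have h2 : ({z | ∃ i, ∃ k : ℕ, (α i : ℂ) * z + γ i = -k} : Set ℂ) ⊆
        Set.range (fun p : Fin r × ℕ => ((-(p.2 : ℂ) - γ p.1) / α p.1 : ℂ)) := by
      rintro z ⟨i, k, h⟩
      refine ⟨(i, k), ?_⟩
      have h0 : (α i : ℂ) ≠ 0 := by exact_mod_cast (by have := hα i; omega : α i ≠ 0)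
      simp only
      rw [div_eq_iff h0]
      linear_combination -h
    exact (Set.countable_range _).mono h2

/-- far points of the real axis are in the domain -/
theorem U_real {r : ℕ} (α : Fin r → ℕ) (hα : ∀ i, 1 ≤ α i) (γ : Fin r → ℂ) :
    ∃ x₀ : ℝ, ∀ x : ℝ, x₀ < x → (x : ℂ) ∈ U α γ := by
  refine ⟨∑ i, ‖γ i‖, fun x hx i k h => ?_⟩
  have h1 : ‖γ i‖ ≤ ∑ i, ‖γ i‖ := Finset.single_le_sum (f := fun i => ‖γ i‖) (fun j _ => norm_nonneg _) (Finset.mem_univ i)
  have h2 := congrArg Complex.re h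
  simp at h2
  have h3 : -‖γ i‖ ≤ (γ i).re := (abs_le.1 (Complex.abs_re_le_norm (γ i))).1
  have h4 : (1 : ℝ) ≤ α i := by exact_mod_cast hα i
  have h5 : 0 ≤ ‖γ i‖ := norm_nonneg _
  have h6 : x ≤ α i * x := by nlinarith
  have h7 : (0 : ℝ) ≤ k := Nat.cast_nonneg k
  linarith

/-- `exp (2 π i z)` is transcendental over the rational functions, on the domain. -/
theorem exp_poly {r : ℕ} (α : Fin r → ℕ) (hα : ∀ i, 1 ≤ α i) (γ : Fin r → ℂ) {ι : Type} (S : Finset ι) (j : ι → ℕ)
    (hj : Set.InjOn j S) (p : ι → ℂ[X])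
    (h : ∀ z ∈ U α γ, ∑ i ∈ S, (p i).eval z * Complex.exp (2 * Real.pi * Complex.I * z) ^ j i = 0) :
    ∀ i ∈ S, p i = 0 := by
  classical
  have step1 : ∀ z ∈ U α γ, ∑ i ∈ S, C (Complex.exp (2 * Real.pi * Complex.I * z) ^ j i) * p i = 0 := by
    intro z hz
    apply Polynomial.eq_zero_of_infinite_isRoot
    refine Set.Infinite.mono (s := Set.range fun n : ℕ => z + n) ?_ (Set.infinite_range_of_injective ?_)
    · rintro _ ⟨n, rfl⟩
      have h1 := h _ (U_shift_nat α γ hz n)
      have h2 : Complex.exp (2 * Real.pi * Complex.I * (z + n)) = Complex.exp (2 * Real.pi * Complex.I * z) := by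
        rw [mul_add, Complex.exp_add]
        have : Complex.exp (2 * Real.pi * Complex.I * n) = 1 := by
          rw [mul_comm]
          exact Complex.exp_nat_mul_two_pi_mul_I n
        rw [this, mul_one]
      rw [h2] at h1
      simp only [Set.mem_ofPred_eq, IsRoot.def, eval_finsetSum, eval_mul, eval_C]
      rw [← h1]
      exact Finset.sum_congr rfl fun i _ => mul_comm _ _
    · intro m n hmn
      simpa using hmn
  obtain ⟨x₀, hx₀⟩ := U_real α hα γ
  intro i hi
  ext d
  rw [coeff_zero]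
  -- the coefficients of degree `d`
  have step2 : ∑ i ∈ S, monomial (j i) ((p i).coeff d) = (0 : ℂ[X]) := by
    apply Polynomial.eq_zero_of_infinite_isRoot
    refine Set.Infinite.mono
      (s := Set.range fun n : ℕ => Complex.exp (2 * Real.pi * Complex.I * ((x₀ + 1 / (n + 2) : ℝ) : ℂ))) ?_
      (Set.infinite_range_of_injective ?_)
    · rintro _ ⟨n, rfl⟩
      have h1 := step1 ((x₀ + 1 / (n + 2) : ℝ) : ℂ) (hx₀ _ (by
        have : (0 : ℝ) < 1 / (n + 2) := by positivity
        linarith))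
      have h2 := congrArg (fun q => q.coeff d) h1
      simp only [finsetSum_coeff, coeff_C_mul, coeff_zero] at h2
      simp only [Set.mem_ofPred_eq, IsRoot.def, eval_finsetSum, eval_monomial]
      rw [← h2]
      exact Finset.sum_congr rfl fun i _ => mul_comm _ _
    · intro m n hmn
      simp only at hmn
      rw [Complex.exp_eq_exp_iff_exists_int] at hmn
      obtain ⟨k, hk⟩ := hmn
      have h2pi : (2 * Real.pi * Complex.I : ℂ) ≠ 0 := Complex.two_pi_I_ne_zero
      have h1 : ((x₀ + 1 / (m + 2) : ℝ) : ℂ) = ((x₀ + 1 / (n + 2) : ℝ) : ℂ) + k := by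
        apply mul_left_cancel₀ h2pi
        linear_combination hk
      have h2 : (x₀ + 1 / (m + 2) : ℝ) = (x₀ + 1 / (n + 2) : ℝ) + k := by exact_mod_cast h1
      have hm1 : (0 : ℝ) < 1 / (m + 2) := by positivity
      have hn1 : (0 : ℝ) < 1 / (n + 2) := by positivity
      have hm2 : (1 : ℝ) / (m + 2) ≤ 1 / 2 := by
        apply one_div_le_one_div_of_le (by norm_num)
        have : (0 : ℝ) ≤ m := Nat.cast_nonneg m
        linarith
      have hn2 : (1 : ℝ) / (n + 2) ≤ 1 / 2 := by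
        apply one_div_le_one_div_of_le (by norm_num)
        have : (0 : ℝ) ≤ n := Nat.cast_nonneg n
        linarith
      have hk0 : k = 0 := by
        have h3 : (k : ℝ) < 1 := by linarith
        have h4 : (-1 : ℝ) < k := by linarith
        have h5 : k < 1 := by exact_mod_cast h3
        have h6 : -1 < k := by exact_mod_cast h4
        omega
      rw [hk0] at h2
      have h3 : (1 : ℝ) / (m + 2) = 1 / (n + 2) := by
        push_cast at h2
        linarith
      have h4 : ((m : ℝ) + 2) = n + 2 := by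
        have hm3 : (0 : ℝ) < m + 2 := by positivity
        have hn3 : (0 : ℝ) < n + 2 := by positivity
        field_simp at h3
        linarith
      have h5 : (m : ℝ) = n := by linarith
      exact_mod_cast h5
  have h3 := congrArg (fun q => q.coeff (j i)) step2
  simp only [finsetSum_coeff, coeff_monomial, coeff_zero] at h3
  rw [Finset.sum_eq_single i] at h3
  · simpa using h3
  · intro i' hi' hne
    rw [if_neg]
    intro hjj
    exact hne (hj hi' hi hjj)
  · intro h4
    exact absurd hi h4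

end Pool.Agent.X191.LR
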