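import Mathlib
import Pool.Agent.X191.LR.Gam

/-!
# Algebraic independence of the functions
-/

set_option autoImplicit false

open Polynomial

namespace Pool.Agent.X191.LR

variable {r s : ℕ}

theorem Rg_ne (α : Fin r → ℕ) (hα : ∀ i, 1 ≤ α i) (γ : Fin r → ℂ) (b : Fin s → ℝ) (hb : ∀ k, 0 < b k) (y : K r s) :
    Rg α γ b y ≠ 0 := by
  rcases y with i | k | u
  · exact RG_ne (hα i) _
  · change C (b k : ℂ) ≠ 0
    rw [Ne, C_eq_zero]
    exact_mod_cast (hb k).ne'
  · exact one_ne_zero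

theorem RR_ne (α : Fin r → ℕ) (hα : ∀ i, 1 ≤ α i) (γ : Fin r → ℂ) (b : Fin s → ℝ) (hb : ∀ k, 0 < b k)
    (m : K r s →₀ ℕ) : RR (Rg α γ b) m ≠ 0 :=
  Finset.prod_ne_zero_iff.2 fun y _ => pow_ne_zero _ (Rg_ne α hα γ b hb y)

open Classical in
theorem cl_RR (α : Fin r → ℕ) (hα : ∀ i, 1 ≤ α i) (γ : Fin r → ℂ) (b : Fin s → ℝ) (hb : ∀ k, 0 < b k)
    (m : K r s →₀ ℕ) (x₀ : ℂ) : cl x₀ (RR (Rg α γ b) m) =
      ∑ i : Fin r, m (Sum.inl i) * (if ∃ z : ℤ, (α i : ℂ) * x₀ + γ i = z then 1 else 0) := by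
  unfold RR
  rw [cl_prod x₀ _ _ fun y _ => pow_ne_zero _ (Rg_ne α hα γ b hb y)]
  simp only [cl_pow x₀ (Rg_ne α hα γ b hb _)]
  rw [Fintype.sum_sum_type]
  have h1 : ∑ x : Fin s ⊕ Unit, m (Sum.inr x) * cl x₀ (Rg α γ b (Sum.inr x)) = 0 := by
    refine Finset.sum_eq_zero fun y _ => ?_
    rcases y with k | u
    · change _ * cl x₀ (C (b k : ℂ)) = 0
      rw [cl_C, mul_zero]
    · change _ * cl x₀ (1 : ℂ[X]) = 0
      rw [cl_one, mul_zero]
  rw [h1, add_zero]
  refine Finset.sum_congr rfl fun i _ => ?_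
  change _ * cl x₀ (RG (α i) (γ i)) = _
  rw [cl_RG (hα i)]

theorem lc_shift (p : ℂ[X]) : (p.comp (X + 1)).leadingCoeff = p.leadingCoeff := by
  have e : (X + 1 : ℂ[X]) = X + C 1 := by simp
  rw [leadingCoeff_comp (by rw [e, natDegree_X_add_C]; norm_num), e, leadingCoeff_X_add_C, one_pow, mul_one]

/-- no relation -/
theorem no_rel (α : Fin r → ℕ) (hα : ∀ i, 1 ≤ α i) (γ : Fin r → ℂ) (b : Fin s → ℝ) (hb : ∀ k, 0 < b k)
    (hd : NoDist α γ) (hm : MulInd b) (Q : MvPolynomial (K r s) ℂ[X])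
    (hrel : ∀ z ∈ U α γ, EV (gg α γ b) z Q = 0) : Q = 0 := by
  classical
  by_contra hQ
  obtain ⟨Q', h0, hr, hmin⟩ := minimal (Rg α γ b) (gg α γ b) (U α γ) (fun z hz => U_shift α γ hz)
    (fun y z hz => gg_shift α γ b hb y hz) Q hQ hrel
  -- the exponents of the Gamma functions and of the exponentials are the same in all the terms
  have hcmp : ∀ m ∈ Q'.support, ∀ m' ∈ Q'.support, (∀ i, m (Sum.inl i) = m' (Sum.inl i)) ∧
      ∀ k, m (Sum.inr (Sum.inl k)) = m' (Sum.inr (Sum.inl k)) := by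
    intro m hm1 m' hm2
    have ha : MvPolynomial.coeff m Q' ≠ 0 := MvPolynomial.mem_support_iff.1 hm1
    have ha' : MvPolynomial.coeff m' Q' ≠ 0 := MvPolynomial.mem_support_iff.1 hm2
    set a := MvPolynomial.coeff m Q'
    set a' := MvPolynomial.coeff m' Q'
    have hsa : a.comp (X + 1) ≠ 0 := by
      have e : (X + 1 : ℂ[X]) = X + C 1 := by simp
      rw [e]
      exact comp_X_add_C_ne_zero_iff.2 ha
    have hsa' : a'.comp (X + 1) ≠ 0 := by
      have e : (X + 1 : ℂ[X]) = X + C 1 := by simp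
      rw [e]
      exact comp_X_add_C_ne_zero_iff.2 ha'
    have hR := RR_ne α hα γ b hb m
    have hR' := RR_ne α hα γ b hb m'
    have h1 := hmin m hm1 m' hm2
    change a.comp (X + 1) * RR (Rg α γ b) m * a' = a * (a'.comp (X + 1) * RR (Rg α γ b) m') at h1
    have hcl : ∀ x₀ : ℂ, cl x₀ (RR (Rg α γ b) m) = cl x₀ (RR (Rg α γ b) m') := by
      intro x₀
      have h2 := congrArg (cl x₀) h1
      rw [cl_mul x₀ (mul_ne_zero hsa hR) ha', cl_mul x₀ hsa hR, cl_mul x₀ ha (mul_ne_zero hsa' hR'),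
        cl_mul x₀ hsa' hR', cl_shift, cl_shift] at h2
      omega
    have hinl : ∀ i, m (Sum.inl i) = m' (Sum.inl i) := by
      have h2 := hd (fun i => (m (Sum.inl i) : ℤ) - m' (Sum.inl i)) (by
        intro x
        have h3 := hcl x
        rw [cl_RR α hα γ b hb, cl_RR α hα γ b hb] at h3
        have h4 : ∀ (e : Fin r → ℤ), ∑ᶠ (i : Fin r) (_ : ∃ z : ℤ, (α i : ℂ) * x + γ i = z), e i =
            ∑ i, e i * (if ∃ z : ℤ, (α i : ℂ) * x + γ i = z then 1 else 0) := by
          intro e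
          rw [finsum_eq_sum_of_fintype]
          refine Finset.sum_congr rfl fun i _ => ?_
          by_cases h : ∃ z : ℤ, (α i : ℂ) * x + γ i = z
          · rw [finsum_eq_if, if_pos h, if_pos h, mul_one]
          · rw [finsum_eq_if, if_neg h, if_neg h, mul_zero]
        rw [h4]
        have h5 : (∑ i, (m (Sum.inl i) : ℤ) * (if ∃ z : ℤ, (α i : ℂ) * x + γ i = z then 1 else 0)) =
            ∑ i, (m' (Sum.inl i) : ℤ) * (if ∃ z : ℤ, (α i : ℂ) * x + γ i = z then 1 else 0) := by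
          exact_mod_cast h3
        simp only [sub_mul, Finset.sum_sub_distrib]
        rw [h5, sub_self])
      intro i
      have h3 := congrFun h2 i
      simp only [Pi.zero_apply] at h3
      omega
    refine ⟨hinl, ?_⟩
    -- leading coefficients
    have h2 := congrArg leadingCoeff h1
    rw [leadingCoeff_mul, leadingCoeff_mul, leadingCoeff_mul, leadingCoeff_mul, lc_shift, lc_shift] at h2
    have hla : a.leadingCoeff ≠ 0 := leadingCoeff_ne_zero.2 ha
    have hla' : a'.leadingCoeff ≠ 0 := leadingCoeff_ne_zero.2 ha'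
    have h3 : (RR (Rg α γ b) m).leadingCoeff = (RR (Rg α γ b) m').leadingCoeff := by
      have : a.leadingCoeff * a'.leadingCoeff * (RR (Rg α γ b) m).leadingCoeff =
          a.leadingCoeff * a'.leadingCoeff * (RR (Rg α γ b) m').leadingCoeff := by
        linear_combination h2
      exact mul_left_cancel₀ (mul_ne_zero hla hla') this
    have h4 : ∀ m : K r s →₀ ℕ, (RR (Rg α γ b) m).leadingCoeff =
        (∏ i, (RG (α i) (γ i)).leadingCoeff ^ m (Sum.inl i)) * ((∏ k, b k ^ m (Sum.inr (Sum.inl k)) : ℝ) : ℂ) := by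
      intro m
      unfold RR
      rw [leadingCoeff_prod, Fintype.prod_sum_type, Fintype.prod_sum_type]
      simp only [leadingCoeff_pow]
      push_cast
      congr 1
      rw [show (∏ x : Unit, (Rg α γ b (Sum.inr (Sum.inr x))).leadingCoeff ^ m (Sum.inr (Sum.inr x))) = 1 by
        refine Finset.prod_eq_one fun u _ => ?_
        change (1 : ℂ[X]).leadingCoeff ^ _ = 1
        rw [leadingCoeff_one, one_pow], mul_one]
      refine Finset.prod_congr rfl fun k _ => ?_
      change (C (b k : ℂ)).leadingCoeff ^ _ = _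
      rw [leadingCoeff_C]
    rw [h4, h4] at h3
    simp only [hinl] at h3
    have h5 : (∏ i, (RG (α i) (γ i)).leadingCoeff ^ m' (Sum.inl i)) ≠ 0 :=
      Finset.prod_ne_zero_iff.2 fun i _ => pow_ne_zero _ (leadingCoeff_ne_zero.2 (RG_ne (hα i) _))
    have h6 := mul_left_cancel₀ h5 h3
    have h7 : (∏ k, b k ^ m (Sum.inr (Sum.inl k)) : ℝ) = ∏ k, b k ^ m' (Sum.inr (Sum.inl k)) := by
      exact_mod_cast h6
    have h8 := hm (fun k => (m (Sum.inr (Sum.inl k)) : ℤ) - m' (Sum.inr (Sum.inl k))) (by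
      have : ∀ k, b k ^ ((m (Sum.inr (Sum.inl k)) : ℤ) - m' (Sum.inr (Sum.inl k))) =
          b k ^ m (Sum.inr (Sum.inl k)) / b k ^ m' (Sum.inr (Sum.inl k)) := by
        intro k
        rw [zpow_sub₀ (hb k).ne', zpow_natCast, zpow_natCast]
      simp only [this, Finset.prod_div_distrib]
      rw [h7, div_self]
      exact Finset.prod_ne_zero_iff.2 fun k _ => pow_ne_zero _ (hb k).ne')
    intro k
    have h9 := congrFun h8 k
    simp only [Pi.zero_apply] at h9
    omega
  -- the relation is one in `exp (2 π i z)`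
  obtain ⟨m₀, hm₀⟩ := MvPolynomial.support_nonempty.2 h0
  have hinj : Set.InjOn (fun m : K r s →₀ ℕ => m (Sum.inr (Sum.inr ()))) Q'.support := by
    intro m hm1 m' hm2 h
    obtain ⟨h1, h2⟩ := hcmp m hm1 m' hm2
    ext y
    rcases y with i | k | u
    · exact h1 i
    · exact h2 k
    · exact h
  have h1 := exp_poly α hα γ Q'.support (fun m => m (Sum.inr (Sum.inr ()))) hinj (fun m => MvPolynomial.coeff m Q') (by
    intro z hz
    have h2 := hr z hz
    unfold EV at h2
    rw [MvPolynomial.coe_eval₂Hom, MvPolynomial.eval₂_eq'] at h2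
    set G : ℂ := (∏ i, gg α γ b (Sum.inl i) z ^ m₀ (Sum.inl i)) *
      ∏ k, gg α γ b (Sum.inr (Sum.inl k)) z ^ m₀ (Sum.inr (Sum.inl k)) with hG
    have hG0 : G ≠ 0 := mul_ne_zero (Finset.prod_ne_zero_iff.2 fun i _ => pow_ne_zero _ (gg_ne α γ b hb _ hz))
      (Finset.prod_ne_zero_iff.2 fun k _ => pow_ne_zero _ (gg_ne α γ b hb _ hz))
    apply mul_left_cancel₀ hG0
    rw [mul_zero, ← h2, Finset.mul_sum]
    refine Finset.sum_congr rfl fun m hmm => ?_
    obtain ⟨h3, h4⟩ := hcmp m₀ hm₀ m hmm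
    rw [Fintype.prod_sum_type, Fintype.prod_sum_type, hG]
    simp only [h3, h4]
    simp only [Finset.univ_unique, Finset.prod_singleton, coe_evalRingHom]
    change _ = eval z (MvPolynomial.coeff m Q') * (_ * (_ * Complex.exp (2 * Real.pi * Complex.I * z) ^ m (Sum.inr (Sum.inr ()))))
    ring)
  exact MvPolynomial.mem_support_iff.1 hm₀ (h1 m₀ hm₀)

theorem locInd (α : Fin r → ℕ) (hα : ∀ i, 1 ≤ α i) (γ : Fin r → ℂ) (b : Fin s → ℝ) (hb : ∀ k, 0 < b k)
    (hd : NoDist α γ) (hm : MulInd b) : ∀ t ∈ U α γ, Pool.Agent.Y124.LocInd (gg α γ b) t := by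
  refine Pool.Agent.Y771.RP.locInd_of (gg α γ b) (U α γ) (U_conn α hα γ) (fun y t ht => gg_an α γ b hb y ht)
    fun P hP => ?_
  have h1 : ∀ z : ℂ, ∀ P : MvPolynomial (Option (K r s)) ℂ,
      EV (gg α γ b) z (MvPolynomial.optionEquivRight ℂ (K r s) P) =
        MvPolynomial.eval (fun o => o.elim z fun y => gg α γ b y z) P := by
    intro z P
    induction P using MvPolynomial.induction_on with
    | C a =>
      rw [MvPolynomial.optionEquivRight_C, MvPolynomial.eval_C]
      simp [EV]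
    | add p q hp hq => rw [map_add, map_add, map_add, hp, hq]
    | mul_X p n hp =>
      rw [map_mul, map_mul, map_mul, hp]
      congr 1
      rcases n with _ | y
      · rw [MvPolynomial.optionEquivRight_X_none, MvPolynomial.eval_X]
        simp [EV]
      · rw [MvPolynomial.optionEquivRight_X_some, MvPolynomial.eval_X]
        simp [EV]
  have h2 := no_rel α hα γ b hb hd hm (MvPolynomial.optionEquivRight ℂ (K r s) P) fun z hz => by
    rw [h1]
    exact hP z hz
  exact (map_eq_zero_iff _ (MvPolynomial.optionEquivRight ℂ (K r s)).injective).1 h2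

end Pool.Agent.X191.LR
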