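import Mathlib
import Pool.Agent.X191.LR.Gam

/-!
# Families without distribution relations
-/

set_option autoImplicit false

namespace Pool.Agent.X191.LR

/-- slopes coprime to `N` and shifts `j / N` -/
theorem noDist_inst {r : ℕ} (N : ℕ) (hN : 1 ≤ N) (α j : Fin r → ℕ) (hα : ∀ i, 1 ≤ α i) (hc : ∀ i, (α i).Coprime N)
    (hj : ∀ i, j i < N) (hinj : Function.Injective fun i => (α i, j i)) :
    NoDist α (fun i => (j i : ℂ) / N) := by
  classical
  intro e he
  by_contra hne
  have hex : (Finset.univ.filter fun i => e i ≠ 0).Nonempty := by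
    obtain ⟨i, hi⟩ := Function.ne_iff.1 hne
    exact ⟨i, Finset.mem_filter.2 ⟨Finset.mem_univ _, hi⟩⟩
  obtain ⟨i₀, hi₀, hmax⟩ := Finset.exists_max_image _ α hex
  rw [Finset.mem_filter] at hi₀
  have hmax' : ∀ i, α i₀ < α i → e i = 0 := by
    intro i hi
    by_contra h
    exact absurd (hmax i (Finset.mem_filter.2 ⟨Finset.mem_univ _, h⟩)) (not_le.2 hi)
  -- the integer `c`
  obtain ⟨c, hc1, hc2⟩ : ∃ c : ℕ, c ≡ N - j i₀ [MOD N] ∧ c ≡ 1 [MOD α i₀] := by
    obtain ⟨c, h1, h2⟩ := Nat.chineseRemainder (hc i₀).symm (N - j i₀) 1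
    exact ⟨c, h1, h2⟩
  have hN0 : (N : ℂ) ≠ 0 := by exact_mod_cast (by omega : N ≠ 0)
  have hα0 : (α i₀ : ℂ) ≠ 0 := by exact_mod_cast (by have := hα i₀; omega : α i₀ ≠ 0)
  have hcop : Nat.Coprime (α i₀) c := by
    have h1 : Nat.gcd c (α i₀) = Nat.gcd 1 (α i₀) := Nat.ModEq.gcd_eq hc2
    rw [Nat.gcd_one_left] at h1
    exact (Nat.coprime_comm.1 h1)
  have h := he ((c : ℂ) / (N * α i₀))
  have hkey : ∀ i, (∃ z : ℤ, (α i : ℂ) * ((c : ℂ) / (N * α i₀)) + (j i : ℂ) / N = z) ↔
      ∃ z : ℤ, (α i : ℤ) * c + α i₀ * j i = α i₀ * (N * z) := by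
    intro i
    refine exists_congr fun z => ?_
    constructor
    · intro h1
      have h2 : (α i : ℂ) * c + α i₀ * j i = α i₀ * (N * z) := by
        field_simp at h1
        linear_combination h1
      exact_mod_cast h2
    · intro h1
      have h2 : (α i : ℂ) * c + α i₀ * j i = α i₀ * (N * z) := by exact_mod_cast h1
      field_simp
      linear_combination h2
  have hval : ∑ᶠ (i : Fin r) (_ : ∃ z : ℤ, (α i : ℂ) * ((c : ℂ) / (N * α i₀)) + (j i : ℂ) / N = z), e i = e i₀ := by
    rw [finsum_eq_single _ i₀]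
    · rw [finsum_eq_if, if_pos]
      rw [hkey]
      have h1 : N ∣ c + j i₀ := by
        have h2 : c + j i₀ ≡ N - j i₀ + j i₀ [MOD N] := Nat.ModEq.add_right _ hc1
        rw [Nat.sub_add_cancel (hj i₀).le] at h2
        exact (Nat.modEq_zero_iff_dvd.1 (h2.trans (by simp [Nat.ModEq])))
      obtain ⟨z, hz⟩ := h1
      refine ⟨z, ?_⟩
      have h3 : (c : ℤ) + j i₀ = N * z := by exact_mod_cast hz
      linear_combination (α i₀ : ℤ) * h3
    · intro i hi
      rw [finsum_eq_if]
      split_ifs with h1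
      · rw [hkey] at h1
        obtain ⟨z, hz⟩ := h1
        by_cases hlt : α i₀ < α i
        · exact hmax' i hlt
        · exfalso
          have hdvd : (α i₀ : ℤ) ∣ (α i : ℤ) * c := ⟨N * z - j i, by linear_combination hz⟩
          have hdvd2 : α i₀ ∣ α i * c := by exact_mod_cast hdvd
          have hdvd3 : α i₀ ∣ α i := hcop.dvd_of_dvd_mul_right hdvd2
          have heq : α i = α i₀ := le_antisymm (not_lt.1 hlt) (Nat.le_of_dvd (hα i) hdvd3)
          have hαz : (α i₀ : ℤ) ≠ 0 := by
            have := hα i₀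
            omega
          have h4 : (c : ℤ) + j i = N * z := by
            apply mul_left_cancel₀ hαz
            rw [heq] at hz
            linear_combination hz
          have h5 : c + j i ≡ c + j i₀ [MOD N] := by
            have h6 : N ∣ c + j i₀ := by
              have h2 : c + j i₀ ≡ N - j i₀ + j i₀ [MOD N] := Nat.ModEq.add_right _ hc1
              rw [Nat.sub_add_cancel (hj i₀).le] at h2
              exact (Nat.modEq_zero_iff_dvd.1 (h2.trans (by simp [Nat.ModEq])))
            have h7 : (N : ℤ) ∣ ((c + j i : ℕ) : ℤ) := ⟨z, by push_cast; exact h4⟩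
            have h8 : N ∣ c + j i := by exact_mod_cast h7
            exact (Nat.modEq_zero_iff_dvd.2 h8).trans (Nat.modEq_zero_iff_dvd.2 h6).symm
          have h9 : j i ≡ j i₀ [MOD N] := Nat.ModEq.add_left_cancel' c h5
          have h10 : j i = j i₀ := Nat.ModEq.eq_of_lt_of_lt h9 (hj i) (hj i₀)
          exact hi (hinj (by simp only [heq, h10]))
      · rfl
  rw [hval] at h
  exact hi₀.2 h

end Pool.Agent.X191.LR
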